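import Pool.Agent.Y478.KU.Parts

set_option autoImplicit false

namespace Pool.Agent.Y478.KU

open Pool.Agent.Helper454.Kauf LaurentPolynomial Piece

theorem isLeast_mul {R : Type} [CommRing R] [NoZeroDivisors R] (f g : LaurentPolynomial R)
    (a b : ℤ) (hf : IsLeast {n | f.coeff n ≠ 0} a) (hg : IsLeast {n | g.coeff n ≠ 0} b) :
    IsLeast {n | (f * g).coeff n ≠ 0} (a + b) := by
  constructor
  · have hu : UniqueAdd f.coeff.support g.coeff.support a b := by
      intro x y hx hy hxy
      have h1 := hf.2 (Finsupp.mem_support_iff.mp hx)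
      have h2 := hg.2 (Finsupp.mem_support_iff.mp hy)
      constructor <;> omega
    show (f * g).coeff (a + b) ≠ 0
    rw [AddMonoidAlgebra.coeff_mul_add_of_uniqueAdd hu]
    exact mul_ne_zero hf.1 hg.1
  · intro n hn
    classical
    have h1 := AddMonoidAlgebra.support_coeff_mul_subset f g (Finsupp.mem_support_iff.mpr hn)
    obtain ⟨x, hx, y, hy, rfl⟩ := Finset.mem_add.mp h1
    have h1 := hf.2 (Finsupp.mem_support_iff.mp hx)
    have h2 := hg.2 (Finsupp.mem_support_iff.mp hy)
    omega

theorem isLeast_one {R : Type} [CommRing R] [Nontrivial R] :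
    IsLeast {n | (1 : LaurentPolynomial R).coeff n ≠ 0} 0 := by
  constructor
  · show (1 : LaurentPolynomial R).coeff 0 ≠ 0
    rw [AddMonoidAlgebra.one_def, AddMonoidAlgebra.coeff_single, Finsupp.single_eq_same]
    exact one_ne_zero
  · intro n hn
    by_contra h
    apply hn
    rw [AddMonoidAlgebra.one_def, AddMonoidAlgebra.coeff_single, Finsupp.single_eq_of_ne (by omega)]

theorem isLeast_pow {R : Type} [CommRing R] [IsDomain R] (f : LaurentPolynomial R)
    (a : ℤ) (hf : IsLeast {n | f.coeff n ≠ 0} a) (k : ℕ) :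
    IsLeast {n | (f ^ k).coeff n ≠ 0} (k * a) := by
  induction k with
  | zero => simpa using isLeast_one (R := R)
  | succ k ih =>
    rw [pow_succ]
    have := isLeast_mul _ _ _ _ ih hf
    have e : (k : ℤ) * a + a = ((k + 1 : ℕ) : ℤ) * a := by push_cast; ring
    rwa [e] at this

theorem normalised_pow (t : ℤ) (p : Raz) (n : ℕ) :
    normalised (t * n) (p ^ n) = normalised t p ^ n := by
  rw [normalised, normalised, mul_pow, aPow, aPow, T_pow]
  congr 2
  ring

theorem isLeast_KN (n : ℕ) :
    IsLeast (exponentsInv (normalised (5 * n) (polyK ^ n))) (3 * n) := by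
  rw [normalised_pow, exponentsInv, map_pow]
  have := isLeast_pow (invert (normalised 5 polyK)) 3 isLeast_K n
  rwa [mul_comm] at this

end Pool.Agent.Y478.KU
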