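import Pool.Agent.Helper454.Kauf.Final

/-!
# Iterated connected sums of the knot diagram `knotK`

`Lp` is the diagram `knotK` cut open at its outermost maximum and minimum, a tangle with two
strands above and below, and `KN n` is the knot diagram obtained by stacking `n` copies of `Lp` and
closing them up: a diagram of the `n`-fold connected sum.
-/

set_option autoImplicit false

namespace Pool.Agent.Y478.KU

open Pool.Agent.Helper454.Kauf LaurentPolynomial Piece

/-- the diagram `knotK` cut open: a tangle with two strands above and below -/
def Lp : Word :=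
  [birth 2, birth 4, birth 6] ++ (KL.map toZ).map crZ ++ [death 6, death 4, death 2]

/-- `n` copies of the tangle `Lp` -/
def rep : ℕ → Word
  | 0 => []
  | n + 1 => Lp ++ rep n

/-- the `n`-fold connected sum -/
def KN (n : ℕ) : Word := birth 0 :: (rep n ++ [death 0])

theorem KN_one : KN 1 = knotK := by decide +kernel

theorem width_Lp : width Lp 2 = some 2 := by decide +kernel

theorem width_rep (n : ℕ) : width (rep n) 2 = some 2 := by
  induction n with
  | zero => rfl
  | succ n ih => rw [rep, width_append, width_Lp]; exact ih

theorem width_rep_death (n : ℕ) : width (rep n ++ [death 0]) 2 = some 0 := by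
  rw [width_append, width_rep]; rfl

theorem width_Lp_append (v : Word) : width (Lp ++ v) 2 = width v 2 := by
  rw [width_append, width_Lp]; rfl

theorem closed_birth (v : Word) : Closed (birth 0 :: v) ↔ width v 2 = some 0 := Iff.rfl

theorem closed_KN (n : ℕ) : Closed (KN n) := width_rep_death n

/-! ### the value -/

theorem value_Lp {M : Type} [AddCommGroup M] [Module Raz M] (Λ : Word → M)
    (hΛ : KauffmanRules Λ) (v : Word) :
    extd Λ (birth 0 :: (Lp ++ v)) = polyK • extd Λ (birth 0 :: v) := by
  have h1 := sem_final hΛ
  rw [final_cons, sem_one hΛ] at h1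
  have h2 := congrFun h1 v
  have e1 : (evalP (expected.headD []) • st (extd Λ) (birth 0)) v =
      polyZ • extd Λ (birth 0 :: v) := rfl
  have e2 : (zVar • zVar • zVar •
    ap (extd Λ) ([birth 0, birth 2, birth 4, birth 6] ++ (KL.map toZ).map crZ ++
      [death 6, death 4, death 2])) v = zVar • zVar • zVar • extd Λ (birth 0 :: (Lp ++ v)) := by
    show zVar • zVar • zVar • extd Λ (([birth 0, birth 2, birth 4, birth 6] ++
      (KL.map toZ).map crZ ++ [death 6, death 4, death 2]) ++ v) = _
    rfl
  rw [e1, e2] at h2
  rw [polyK, mul_smul, h2, smul_smul, smul_smul, smul_smul, zpow3, one_smul]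

theorem value_rep {M : Type} [AddCommGroup M] [Module Raz M] (Λ : Word → M)
    (hΛ : KauffmanRules Λ) (n : ℕ) (v : Word) :
    extd Λ (birth 0 :: (rep n ++ v)) = polyK ^ n • extd Λ (birth 0 :: v) := by
  induction n with
  | zero => simp [rep]
  | succ n ih => rw [rep, List.append_assoc, value_Lp Λ hΛ, ih, smul_smul, pow_succ']

theorem value_KN {M : Type} [AddCommGroup M] [Module Raz M] (Λ : Word → M)
    (hΛ : KauffmanRules Λ) (n : ℕ) : Λ (KN n) = polyK ^ n • Λ circle := by
  have h := value_rep Λ hΛ n [death 0]
  have e1 : extd Λ (birth 0 :: (rep n ++ [death 0])) = Λ (KN n) := by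
    show extd Λ (KN n) = _
    rw [extd, if_pos (closed_KN n)]
  have e2 : extd Λ (birth 0 :: [death 0]) = Λ circle := by
    rw [extd, if_pos (by decide)]; rfl
  rw [← e1, ← e2, h]

/-! ### the number of components -/

/-- partial evaluation of `componentsAux` -/
def runC : Word → List ℕ → ℕ → ℕ × List ℕ × ℕ
  | [], L, k => (0, L, k)
  | birth i :: w, L, k => runC w (L.take i ++ [k, k] ++ L.drop i) (k + 1)
  | death i :: w, L, k =>
      ((if L.getD i 0 = L.getD (i + 1) 0 then 1 else 0) +
        (runC w ((L.take i ++ L.drop (i + 2)).map
          (fun c => if c = L.getD (i + 1) 0 then L.getD i 0 else c)) k).1,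
       (runC w ((L.take i ++ L.drop (i + 2)).map
          (fun c => if c = L.getD (i + 1) 0 then L.getD i 0 else c)) k).2)
  | pos i :: w, L, k => runC w (L.take i ++ [L.getD (i + 1) 0, L.getD i 0] ++ L.drop (i + 2)) k
  | neg i :: w, L, k => runC w (L.take i ++ [L.getD (i + 1) 0, L.getD i 0] ++ L.drop (i + 2)) k

theorem componentsAux_append (u v : Word) (L : List ℕ) (k : ℕ) :
    componentsAux (u ++ v) L k =
      (runC u L k).1 + componentsAux v (runC u L k).2.1 (runC u L k).2.2 := by
  induction u generalizing L k with
  | nil => simp [runC]
  | cons p u ih =>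
    cases p with
    | birth i => exact ih _ _
    | death i =>
      show _ + componentsAux (u ++ v) _ _ = _
      rw [ih]
      show _ = ((if L.getD i 0 = L.getD (i + 1) 0 then 1 else 0) + _) + _
      rw [add_assoc]
      rfl
    | pos i => exact ih _ _
    | neg i => exact ih _ _

theorem getD_map (f : ℕ → ℕ) (L : List ℕ) (i : ℕ) (h : i < L.length) :
    (L.map f).getD i 0 = f (L.getD i 0) := by
  rw [List.getD_eq_getElem _ _ (by simpa using h), List.getD_eq_getElem _ _ h, List.getElem_map]

theorem componentsAux_rename (f : ℕ → ℕ) (hf : Function.Injective f) (w : Word) :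
    ∀ (L : List ℕ) (k k' : ℕ), (∀ j, f (k + j) = k' + j) → (width w L.length).isSome →
      componentsAux w (L.map f) k' = componentsAux w L k := by
  induction w with
  | nil => intros; rfl
  | cons p w ih =>
    intro L k k' hk hw
    have hk0 : f k = k' := by simpa using hk 0
    cases p with
    | birth i =>
      simp only [Helper454.Kauf.width, Piece.width] at hw
      split at hw
      · rename_i hi
        rw [componentsAux, componentsAux, ← ih (L.take i ++ [k, k] ++ L.drop i) (k + 1) (k' + 1)
          (fun j => by rw [add_assoc, hk, add_assoc])
          (by simpa [Nat.min_eq_left hi, show i + (2 + (L.length - i)) = L.length + 2 by omega,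
                show i + (L.length - i + 2) = L.length + 2 by omega] using hw)]
        simp [List.map_take, List.map_drop, hk0]
      · simp at hw
    | death i =>
      simp only [Helper454.Kauf.width, Piece.width] at hw
      split at hw
      · rename_i hi
        rw [componentsAux, componentsAux, getD_map f L i (by omega), getD_map f L (i + 1) (by omega)]
        congr 1
        · simp [hf.eq_iff]
        · rw [← ih ((L.take i ++ L.drop (i + 2)).map
            (fun c => if c = L.getD (i + 1) 0 then L.getD i 0 else c)) k k' hk
            (by simpa [Nat.min_eq_left (show i ≤ L.length by omega),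
                  show i + (L.length - (i + 2)) = L.length - 2 by omega] using hw)]
          congr 1
          rw [← List.map_take, ← List.map_drop, ← List.map_append, List.map_map, List.map_map]
          refine List.map_congr_left fun c _ => ?_
          simp only [Function.comp_apply, hf.eq_iff]
          split <;> rfl
      · simp at hw
    | pos i =>
      simp only [Helper454.Kauf.width, Piece.width] at hw
      split at hw
      · rename_i hi
        rw [componentsAux, componentsAux, getD_map f L i (by omega),
          getD_map f L (i + 1) (by omega),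
          ← ih (L.take i ++ [L.getD (i + 1) 0, L.getD i 0] ++ L.drop (i + 2)) k k' hk
          (by simpa [Nat.min_eq_left (show i ≤ L.length by omega),
                  show i + (2 + (L.length - (i + 2))) = L.length by omega,
                  show i + (L.length - (i + 2) + 2) = L.length by omega] using hw)]
        simp [List.map_take, List.map_drop]
      · simp at hw
    | neg i =>
      simp only [Helper454.Kauf.width, Piece.width] at hw
      split at hw
      · rename_i hi
        rw [componentsAux, componentsAux, getD_map f L i (by omega),
          getD_map f L (i + 1) (by omega),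
          ← ih (L.take i ++ [L.getD (i + 1) 0, L.getD i 0] ++ L.drop (i + 2)) k k' hk
          (by simpa [Nat.min_eq_left (show i ≤ L.length by omega),
                  show i + (2 + (L.length - (i + 2))) = L.length by omega,
                  show i + (L.length - (i + 2) + 2) = L.length by omega] using hw)]
        simp [List.map_take, List.map_drop]
      · simp at hw


theorem runC_Lp : runC Lp [0, 0] 1 = (0, [0, 0], 4) := by decide +kernel

/-- the renaming `0 ↦ 0`, `n + 1 ↦ n + 4` -/
def ren : ℕ → ℕ
  | 0 => 0
  | n + 1 => n + 4

theorem ren_injective : Function.Injective ren := by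
  intro a b h
  cases a <;> cases b <;> simp only [ren] at h <;> omega

theorem comp_Lp (v : Word) (hv : (width v 2).isSome) :
    componentsAux (Lp ++ v) [0, 0] 1 = componentsAux v [0, 0] 1 := by
  rw [componentsAux_append, runC_Lp, zero_add]
  exact componentsAux_rename ren ren_injective v [0, 0] 1 4
    (fun j => by rw [add_comm 1 j, ren, add_comm]) hv

theorem components_KN (n : ℕ) : components (KN n) = 1 := by
  show componentsAux (rep n ++ [death 0]) [0, 0] 1 = 1
  induction n with
  | zero => rfl
  | succ n ih =>
    rw [rep, List.append_assoc, comp_Lp _ (by rw [width_rep_death]; rfl), ih]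

theorem isKnot_KN (n : ℕ) : IsKnot (KN n) := ⟨closed_KN n, components_KN n⟩

/-! ### the writhe -/

/-- partial version of `wr`: the directions of the strands below and the sum of the signs -/
def wrP : List Bool → Word → List Bool → Option (List Bool × ℤ)
  | d, [], _ => some (d, 0)
  | _, birth _ :: _, [] => none
  | d, birth i :: w, b :: bs =>
    if i ≤ d.length then wrP (d.take i ++ [b, !b] ++ d.drop i) w bs else none
  | d, death i :: w, bs =>
    if i ≤ d.length then
      match d.drop i with
      | x :: y :: r => if y = !x then wrP (d.take i ++ r) w bs else none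
      | _ => none
    else none
  | d, pos i :: w, bs =>
    if i ≤ d.length then
      match d.drop i with
      | x :: y :: r => (wrP (d.take i ++ [y, x] ++ r) w bs).map
          (fun p => (p.1, p.2 + if x = y then 1 else -1))
      | _ => none
    else none
  | d, neg i :: w, bs =>
    if i ≤ d.length then
      match d.drop i with
      | x :: y :: r => (wrP (d.take i ++ [y, x] ++ r) w bs).map
          (fun p => (p.1, p.2 + if x = y then -1 else 1))
      | _ => none
    else none

theorem wrP_sound (w : Word) : ∀ (d bs d' : List Bool) (s : ℤ), wrP d w bs = some (d', s) →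
    ∀ (v : Word) (t : ℤ), Oriented d' v t → Oriented d (w ++ v) (t + s) := by
  induction w with
  | nil =>
    intro d bs d' s h v t hv
    simp only [wrP, Option.some.injEq, Prod.mk.injEq] at h
    obtain ⟨rfl, rfl⟩ := h
    simpa using hv
  | cons p w ih =>
    intro d bs d' s h v t hv
    cases p with
    | birth i =>
      cases bs with
      | nil => simp [wrP] at h
      | cons b bs =>
        simp only [wrP] at h
        split at h
        · rename_i hi
          have := Oriented.birth (d.take i) (d.drop i) b (w ++ v) _ (ih _ _ _ _ h v t hv)
          rwa [List.take_append_drop, List.length_take, Nat.min_eq_left hi] at this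
        · simp at h
    | death i =>
      simp only [wrP] at h
      split at h
      · rename_i hi
        split at h
        · rename_i x y r hr
          split at h
          · rename_i hy
            subst hy
            have := Oriented.death (d.take i) r x (w ++ v) _ (ih _ _ _ _ h v t hv)
            rw [List.length_take, Nat.min_eq_left hi] at this
            have e : d.take i ++ [x, !x] ++ r = d := by
              rw [List.append_assoc, List.cons_append, List.cons_append, List.nil_append, ← hr,
                List.take_append_drop]
            rwa [e] at this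
          · simp at h
        · simp at h
      · simp at h
    | pos i =>
      simp only [wrP] at h
      split at h
      · rename_i hi
        split at h
        · rename_i x y r hr
          rw [Option.map_eq_some_iff] at h
          obtain ⟨⟨d1, s1⟩, h1, h2⟩ := h
          simp only [Prod.mk.injEq] at h2
          obtain ⟨rfl, rfl⟩ := h2
          have := Oriented.pos (d.take i) r x y (w ++ v) _ (ih _ _ _ _ h1 v t hv)
          rw [List.length_take, Nat.min_eq_left hi] at this
          have e : d.take i ++ [x, y] ++ r = d := by
            rw [List.append_assoc, List.cons_append, List.cons_append, List.nil_append, ← hr,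
              List.take_append_drop]
          rw [e, add_assoc] at this
          exact this
        · simp at h
      · simp at h
    | neg i =>
      simp only [wrP] at h
      split at h
      · rename_i hi
        split at h
        · rename_i x y r hr
          rw [Option.map_eq_some_iff] at h
          obtain ⟨⟨d1, s1⟩, h1, h2⟩ := h
          simp only [Prod.mk.injEq] at h2
          obtain ⟨rfl, rfl⟩ := h2
          have := Oriented.neg (d.take i) r x y (w ++ v) _ (ih _ _ _ _ h1 v t hv)
          rw [List.length_take, Nat.min_eq_left hi] at this
          have e : d.take i ++ [x, y] ++ r = d := by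
            rw [List.append_assoc, List.cons_append, List.cons_append, List.nil_append, ← hr,
              List.take_append_drop]
          rw [e, add_assoc] at this
          exact this
        · simp at h
      · simp at h

theorem wrP_Lp : wrP [true, false] Lp [false, true, false] = some ([true, false], 5) := by
  decide +kernel

theorem oriented_rep (n : ℕ) : Oriented [true, false] (rep n ++ [death 0]) (5 * n) := by
  induction n with
  | zero =>
    have := Oriented.death [] [] true [] 0 Oriented.nil
    simpa [rep] using this
  | succ n ih =>
    rw [rep, List.append_assoc]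
    have := wrP_sound Lp _ _ _ _ wrP_Lp _ _ ih
    have e : (5 * (n : ℤ) + 5) = 5 * ((n + 1 : ℕ) : ℤ) := by push_cast; ring
    rwa [e] at this

theorem hasWrithe_KN (n : ℕ) : HasWrithe (KN n) (5 * n) :=
  Oriented.birth [] [] true _ _ (oriented_rep n)

/-- partial version of `wrAll` -/
def wrAllP : List Bool → Word → List (List Bool × ℤ)
  | d, [] => [(d, 0)]
  | d, birth i :: w =>
    wrAllP (d.take i ++ [true, false] ++ d.drop i) w ++
      wrAllP (d.take i ++ [false, true] ++ d.drop i) w
  | d, death i :: w =>
    if d.getD i true = !(d.getD (i + 1) true) then wrAllP (d.take i ++ d.drop (i + 2)) w else []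
  | d, pos i :: w =>
    (wrAllP (d.take i ++ [d.getD (i + 1) true, d.getD i true] ++ d.drop (i + 2)) w).map
      (fun p => (p.1, p.2 + if d.getD i true = d.getD (i + 1) true then 1 else -1))
  | d, neg i :: w =>
    (wrAllP (d.take i ++ [d.getD (i + 1) true, d.getD i true] ++ d.drop (i + 2)) w).map
      (fun p => (p.1, p.2 + if d.getD i true = d.getD (i + 1) true then -1 else 1))

theorem wrAllP_complete (w : Word) : ∀ (v : Word) (d : List Bool) (t : ℤ), Oriented d (w ++ v) t →
    ∃ d' s t', (d', s) ∈ wrAllP d w ∧ Oriented d' v t' ∧ t = t' + s := by
  induction w with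
  | nil =>
    intro v d t h
    exact ⟨d, 0, t, by simp [wrAllP], h, by simp⟩
  | cons p w ih =>
    intro v d t h
    rw [List.cons_append] at h
    cases h with
    | birth l r b w' t' h1 =>
      obtain ⟨d', s, t'', h2, h3, rfl⟩ := ih v _ _ h1
      refine ⟨d', s, t'', ?_, h3, rfl⟩
      rw [wrAllP, List.mem_append]
      have e1 : (l ++ r).take l.length = l := by simp
      have e2 : (l ++ r).drop l.length = r := by simp
      rw [e1, e2]
      cases b
      · exact Or.inr h2
      · exact Or.inl h2
    | death l r b w' t' h1 =>
      obtain ⟨d', s, t'', h2, h3, rfl⟩ := ih v _ _ h1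
      refine ⟨d', s, t'', ?_, h3, rfl⟩
      rw [wrAllP, getD_len, getD_len', take_len, drop_len, if_pos (by cases b <;> rfl)]
      exact h2
    | pos l r b c w' t' h1 =>
      obtain ⟨d', s, t'', h2, h3, rfl⟩ := ih v _ _ h1
      refine ⟨d', _, t'', ?_, h3, add_assoc _ _ _⟩
      rw [wrAllP, getD_len, getD_len', take_len, drop_len]
      exact List.mem_map_of_mem (f := fun p : List Bool × ℤ => (p.1, p.2 + if b = c then 1 else -1))
        h2
    | neg l r b c w' t' h1 =>
      obtain ⟨d', s, t'', h2, h3, rfl⟩ := ih v _ _ h1
      refine ⟨d', _, t'', ?_, h3, add_assoc _ _ _⟩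
      rw [wrAllP, getD_len, getD_len', take_len, drop_len]
      exact List.mem_map_of_mem (f := fun p : List Bool × ℤ => (p.1, p.2 + if b = c then -1 else 1))
        h2

theorem wrAllP_Lp (b : Bool) : ∀ p ∈ wrAllP [b, !b] Lp,
    (p.1 = [true, false] ∨ p.1 = [false, true]) ∧ p.2 = 5 := by
  revert b
  decide +kernel

theorem oriented_rep_unique (n : ℕ) : ∀ (b : Bool) (t : ℤ),
    Oriented [b, !b] (rep n ++ [death 0]) t → t = 5 * n := by
  induction n with
  | zero =>
    intro b t h
    have h1 := wrAll_complete _ _ _ h
    have h2 : ∀ b : Bool, ∀ t ∈ wrAll [b, !b] [death 0], t = 0 := by decide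
    simpa using h2 b t h1
  | succ n ih =>
    intro b t h
    rw [rep, List.append_assoc] at h
    obtain ⟨d', s, t', h1, h2, rfl⟩ := wrAllP_complete Lp _ _ _ h
    obtain ⟨h3, h4⟩ := wrAllP_Lp b _ h1
    simp only at h3 h4
    have h5 : t' = 5 * n := by
      rcases h3 with rfl | rfl
      · exact ih true t' h2
      · exact ih false t' h2
    rw [h4, h5]
    push_cast
    ring

theorem writhe_unique_KN (n : ℕ) (t : ℤ) (h : HasWrithe (KN n) t) : t = 5 * n := by
  obtain ⟨d', s, t', h1, h2, rfl⟩ := wrAllP_complete [birth 0] _ _ _ h
  have h3 : ∀ p ∈ wrAllP [] [birth 0],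
      (p.1 = [true, false] ∨ p.1 = [false, true]) ∧ p.2 = 0 := by decide
  obtain ⟨h4, h5⟩ := h3 _ h1
  simp only at h4 h5
  rw [h5, add_zero]
  rcases h4 with rfl | rfl
  · exact oriented_rep_unique n true t' h2
  · exact oriented_rep_unique n false t' h2

/-! ### the unknotting number -/

/-- apply a list of moves to the upper part of a diagram, with two strands below -/
def runP : Word → List (ℕ × Tag) → Option Word
  | w, [] => some w
  | w, (k, t) :: l =>
    if t.ok ∧ w = w.take k ++ t.lhs ++ w.drop (k + t.lhs.length) ∧ width w 0 = some 2 ∧
        width (w.take k ++ t.rhs ++ w.drop (k + t.lhs.length)) 0 = some 2 then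
      runP (w.take k ++ t.rhs ++ w.drop (k + t.lhs.length)) l
    else none

theorem closed_append {w v : Word} (hw : width w 0 = some 2) (hv : width v 2 = some 0) :
    Closed (w ++ v) := by
  rw [Closed, width_append, hw]
  exact hv

theorem runP_sound (w w' : Word) (l : List (ℕ × Tag)) (h : runP w l = some w') (v : Word)
    (hv : width v 2 = some 0) : Isotopic (w ++ v) (w' ++ v) := by
  induction l generalizing w with
  | nil =>
    simp only [runP, Option.some.injEq] at h
    subst h
    exact Relation.EqvGen.refl _
  | cons a l ih =>
    obtain ⟨k, t⟩ := a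
    rw [runP] at h
    split at h
    · rename_i hc
      obtain ⟨h1, h2, h3, h4⟩ := hc
      refine Relation.EqvGen.trans _ _ _ ?_ (ih _ h)
      have c1 := closed_append h3 hv
      have c2 := closed_append h4 hv
      rw [h2] at c1
      rw [List.append_assoc] at c1 c2
      have := Tag.sound t h1 (w.take k) (w.drop (k + t.lhs.length) ++ v) c1 c2
      rw [← List.append_assoc, ← List.append_assoc, ← h2] at this
      exact this
    · exact absurd h (by simp)

/-- the part of `Lp` below the changed crossing -/
def partYp : Word := ((wL ++ [2, 4, 6]).map toZ).map crZ ++ [death 6, death 4, death 2]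

theorem Lp_eq : birth 0 :: Lp = partX ++ [pos 0] ++ partYp := by decide +kernel

theorem runP_Lp : runP (partX ++ [neg 0] ++ partYp) moves = some [birth 0] := by
  decide +kernel

theorem UnknottedBy.of_isotopic {n : ℕ} {D D' : Word} (h : Isotopic D D')
    (h' : UnknottedBy n D') : UnknottedBy n D := by
  cases h' with
  | zero _ h1 => exact UnknottedBy.zero _ (Relation.EqvGen.trans _ _ _ h h1)
  | succ m _ E E' h1 h2 h3 =>
    exact UnknottedBy.succ m _ E E' (Relation.EqvGen.trans _ _ _ h h1) h2 h3

theorem unknottedBy_KN (n : ℕ) : UnknottedBy n (KN n) := by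
  induction n with
  | zero => exact UnknottedBy.zero _ (Relation.EqvGen.refl _)
  | succ n ih =>
    have e : KN (n + 1) = partX ++ [pos 0] ++ (partYp ++ (rep n ++ [death 0])) := by
      rw [KN, rep, List.append_assoc, ← List.cons_append, Lp_eq]
      simp only [List.append_assoc]
    have h1 : CrossingChange (KN (n + 1))
        (partX ++ [neg 0] ++ (partYp ++ (rep n ++ [death 0]))) := by
      rw [e]
      exact CrossingChange.posToNeg _ _ 0 (by rw [← e]; exact closed_KN _)
    have h2 : Isotopic (partX ++ [neg 0] ++ (partYp ++ (rep n ++ [death 0]))) (KN n) := by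
      have := runP_sound _ _ _ runP_Lp (rep n ++ [death 0]) (width_rep_death n)
      rw [List.append_assoc (partX ++ [neg 0])] at this
      exact this
    exact UnknottedBy.succ n _ _ _ (Relation.EqvGen.refl _) h1 (UnknottedBy.of_isotopic h2 ih)

theorem unknottingNumber_KN (n : ℕ) : unknottingNumber (KN n) ≤ n :=
  Nat.sInf_le (unknottedBy_KN n)

theorem unknottedBy_unknottingNumber (n : ℕ) :
    UnknottedBy (unknottingNumber (KN n)) (KN n) :=
  Nat.sInf_mem (s := {m | UnknottedBy m (KN n)}) ⟨n, unknottedBy_KN n⟩

end Pool.Agent.Y478.KU
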